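import Pool.Agent.Q129.Halin.Defs
import Pool.Agent.Q129.Halin.Data

/-! Checking the certificate. -/

set_option autoImplicit false

namespace Q129.Halin

open BT

/-- base 64 digit -/
def dig (w n : ℕ) : ℕ := (w >>> (6 * n)) % 64

/-- the fifteen two-element subsets of the six colours, as bit masks -/
def cols : List ℕ := [3, 5, 9, 17, 33, 6, 10, 18, 34, 12, 20, 36, 24, 40, 48]

/-- image of colour `i` under permutation number `π` -/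
def pd (π i : ℕ) : ℕ := (TAB >>> (3 * (6 * π + i))) % 8

/-- the action of permutation number `π` on bit masks -/
def act (π m : ℕ) : ℕ :=
  (m % 2) * 2 ^ pd π 0 + (m / 2 % 2) * 2 ^ pd π 1 + (m / 4 % 2) * 2 ^ pd π 2 +
    (m / 8 % 2) * 2 ^ pd π 3 + (m / 16 % 2) * 2 ^ pd π 4 + (m / 32 % 2) * 2 ^ pd π 5

theorem act_mem : ∀ π ∈ List.range 48, ∀ x ∈ cols, act π x ∈ cols := by decide +kernel

theorem act_land : ∀ π ∈ List.range 48, ∀ x ∈ cols, ∀ y ∈ cols, x &&& y = 0 →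
    act π x &&& act π y = 0 := by decide +kernel

theorem act_ne : ∀ π ∈ List.range 48, ∀ x ∈ cols, ∀ y ∈ cols, x ≠ y →
    act π x ≠ act π y := by decide +kernel

/-- `R t r p a a' b b'`: there is a good colouring of `t` in which the root, the leftmost and the
rightmost leaf have colours `r`, `a`, `b` while their neighbours outside have colours
`p`, `a'`, `b'`. -/
def R : BT → ℕ → ℕ → ℕ → ℕ → ℕ → ℕ → Prop
  | .leaf, r, p, a, a', b, b' =>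
      a = r ∧ b = r ∧ r ∈ cols ∧ p ∈ cols ∧ a' ∈ cols ∧ b' ∈ cols ∧
      r &&& p = 0 ∧ r &&& a' = 0 ∧ r &&& b' = 0 ∧ p ≠ a' ∧ p ≠ b' ∧ a' ≠ b'
  | .node t₁ t₂, r, p, a, a', b, b' =>
      r ∈ cols ∧ p ∈ cols ∧ r &&& p = 0 ∧
      ∃ r₁ r₂ b₁ a₂, r₁ ≠ r₂ ∧ r₁ ≠ p ∧ r₂ ≠ p ∧ R t₁ r₁ r a a' b₁ a₂ ∧ R t₂ r₂ r a₂ b₁ b b'

theorem R_mem : ∀ (t : BT) (r p a a' b b' : ℕ), R t r p a a' b b' →
    r ∈ cols ∧ p ∈ cols ∧ a ∈ cols ∧ a' ∈ cols ∧ b ∈ cols ∧ b' ∈ cols := by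
  intro t
  induction t with
  | leaf =>
    intro r p a a' b b' h
    obtain ⟨rfl, rfl, h1, h2, h3, h4, -⟩ := h
    exact ⟨h1, h2, h1, h3, h1, h4⟩
  | node t₁ t₂ ih₁ ih₂ =>
    intro r p a a' b b' h
    obtain ⟨h1, h2, -, r₁, r₂, b₁, a₂, -, -, -, h3, h4⟩ := h
    have := ih₁ _ _ _ _ _ _ h3
    have := ih₂ _ _ _ _ _ _ h4
    tauto

theorem R_act (π : ℕ) (hπ : π ∈ List.range 48) : ∀ (t : BT) (r p a a' b b' : ℕ),
    R t r p a a' b b' → R t (act π r) (act π p) (act π a) (act π a') (act π b) (act π b') := by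
  intro t
  induction t with
  | leaf =>
    intro r p a a' b b' h
    obtain ⟨rfl, rfl, h1, h2, h3, h4, h5, h6, h7, h8, h9, h10⟩ := h
    exact ⟨rfl, rfl, act_mem π hπ _ h1, act_mem π hπ _ h2, act_mem π hπ _ h3, act_mem π hπ _ h4,
      act_land π hπ _ h1 _ h2 h5, act_land π hπ _ h1 _ h3 h6, act_land π hπ _ h1 _ h4 h7,
      act_ne π hπ _ h2 _ h3 h8, act_ne π hπ _ h2 _ h4 h9, act_ne π hπ _ h3 _ h4 h10⟩
  | node t₁ t₂ ih₁ ih₂ =>
    intro r p a a' b b' h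
    obtain ⟨h1, h2, h3, r₁, r₂, b₁, a₂, h4, h5, h6, h7, h8⟩ := h
    obtain ⟨m1, -, -, -, -, -⟩ := R_mem _ _ _ _ _ _ _ h7
    obtain ⟨m2, -, -, -, -, -⟩ := R_mem _ _ _ _ _ _ _ h8
    exact ⟨act_mem π hπ _ h1, act_mem π hπ _ h2, act_land π hπ _ h1 _ h2 h3, act π r₁, act π r₂,
      act π b₁, act π a₂, act_ne π hπ _ m1 _ m2 h4, act_ne π hπ _ m1 _ h2 h5,
      act_ne π hπ _ m2 _ h2 h6, ih₁ _ _ _ _ _ _ h7, ih₂ _ _ _ _ _ _ h8⟩

/-- number of states of type `k` -/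
def cnt (k : ℕ) : ℕ := dig CNT k

/-- component `c` of state `n` of type `k` -/
def sd (k n c : ℕ) : ℕ := dig (LD.getD k 0) (4 * n + c)

/-- type of the composition of types `i` and `j` -/
def K (i j : ℕ) : ℕ := dig KK (9 * i + j)

/-- every state in the list of type `k` is realised by `t` -/
def Real (k : ℕ) (t : BT) : Prop :=
  ∀ n < cnt k, R t 3 12 (sd k n 0) (sd k n 1) (sd k n 2) (sd k n 3)

/-- the witness `w` (eight digits from position `o`) shows that a tree with subtrees of types `i`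
and `j` realises the state `(3, 12, a, a', b, b')` -/
def okw (i j a a' b b' w o : ℕ) : Bool :=
  let r₁ := dig w o
  let r₂ := dig w (o + 1)
  let b₁ := dig w (o + 2)
  let a₂ := dig w (o + 3)
  let i₁ := dig w (o + 4)
  let π₁ := dig w (o + 5)
  let i₂ := dig w (o + 6)
  let π₂ := dig w (o + 7)
  (r₁ != r₂) && (r₁ != 12) && (r₂ != 12) && decide (i₁ < cnt i) && decide (i₂ < cnt j) &&
  decide (π₁ < 48) && decide (π₂ < 48) &&
  (act π₁ 3 == r₁) && (act π₁ 12 == 3) && (act π₁ (sd i i₁ 0) == a) &&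
  (act π₁ (sd i i₁ 1) == a') && (act π₁ (sd i i₁ 2) == b₁) && (act π₁ (sd i i₁ 3) == a₂) &&
  (act π₂ 3 == r₂) && (act π₂ 12 == 3) && (act π₂ (sd j i₂ 0) == a₂) &&
  (act π₂ (sd j i₂ 1) == b₁) && (act π₂ (sd j i₂ 2) == b) && (act π₂ (sd j i₂ 3) == b')

theorem okw_spec {i j a a' b b' w o : ℕ} (h : okw i j a a' b b' w o = true) {t₁ t₂ : BT}
    (h₁ : Real i t₁) (h₂ : Real j t₂) : R (.node t₁ t₂) 3 12 a a' b b' := by
  simp only [okw, Bool.and_eq_true, bne_iff_ne, decide_eq_true_eq, beq_iff_eq] at h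
  obtain ⟨⟨⟨⟨⟨⟨⟨⟨⟨⟨⟨⟨⟨⟨⟨⟨⟨⟨c1, c2⟩, c3⟩, c4⟩, c5⟩, c6⟩, c7⟩, e1⟩, e2⟩, e3⟩, e4⟩, e5⟩, e6⟩, f1⟩, f2⟩,
    f3⟩, f4⟩, f5⟩, f6⟩ := h
  have g₁ := R_act _ (List.mem_range.2 c6) _ _ _ _ _ _ _ (h₁ _ c4)
  have g₂ := R_act _ (List.mem_range.2 c7) _ _ _ _ _ _ _ (h₂ _ c5)
  rw [e1, e2, e3, e4, e5, e6] at g₁
  rw [f1, f2, f3, f4, f5, f6] at g₂
  exact ⟨by decide, by decide, by decide, _, _, _, _, c1, c2, c3, g₁, g₂⟩

/-- all composition checks for the pair of types `i`, `j` -/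
def okp (i j : ℕ) : Bool :=
  let k := K i j
  let w := WD.getD (9 * i + j) 0
  decide (1 ≤ k) && decide (k < 9) && (List.range (cnt k)).all fun n =>
    okw i j (sd k n 0) (sd k n 1) (sd k n 2) (sd k n 3) w (8 * n)

theorem okp_all : ∀ i ∈ List.range 9, ∀ j ∈ List.range 9, okp i j = true := by decide +kernel

theorem leaf_ok : ∀ n ∈ List.range (cnt 0),
    sd 0 n 0 = 3 ∧ sd 0 n 2 = 3 ∧ sd 0 n 1 ∈ cols ∧ sd 0 n 3 ∈ cols ∧
    3 &&& sd 0 n 1 = 0 ∧ 3 &&& sd 0 n 3 = 0 ∧ 12 ≠ sd 0 n 1 ∧ 12 ≠ sd 0 n 3 ∧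
    sd 0 n 1 ≠ sd 0 n 3 := by decide +kernel

/-- every tree has one of the nine types -/
theorem universal : ∀ t : BT, ∃ k < 9, Real k t ∧ (k = 0 → t = .leaf) := by
  intro t
  induction t with
  | leaf =>
    refine ⟨0, by norm_num, ?_, fun _ => rfl⟩
    intro n hn
    obtain ⟨h1, h2, h3, h4, h5, h6, h7, h8, h9⟩ := leaf_ok n (List.mem_range.2 hn)
    exact ⟨h1, h2, by decide, by decide, h3, h4, by decide, h5, h6, h7, h8, h9⟩
  | node t₁ t₂ ih₁ ih₂ =>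
    obtain ⟨i, hi, h₁, -⟩ := ih₁
    obtain ⟨j, hj, h₂, -⟩ := ih₂
    have h := okp_all i (List.mem_range.2 hi) j (List.mem_range.2 hj)
    simp only [okp, Bool.and_eq_true, decide_eq_true_eq, List.all_eq_true, List.mem_range] at h
    obtain ⟨⟨k1, k2⟩, h⟩ := h
    refine ⟨K i j, k2, ?_, ?_⟩
    · intro n hn
      exact okw_spec (h n hn) h₁ h₂
    · intro h0
      omega

/-- check for closing up two trees none of which is a leaf -/
def okf (k l : ℕ) : Bool :=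
  let o := 3 * (9 * k + l)
  let i₁ := dig FD o
  let i₂ := dig FD (o + 1)
  let π := dig FD (o + 2)
  decide (i₁ < cnt k) && decide (i₂ < cnt l) && decide (π < 48) &&
  (act π 3 == 12) && (act π 12 == 3) && (act π (sd l i₂ 0) == sd k i₁ 3) &&
  (act π (sd l i₂ 1) == sd k i₁ 2) && (act π (sd l i₂ 2) == sd k i₁ 1) &&
  (act π (sd l i₂ 3) == sd k i₁ 0)

theorem okf_all : ∀ k ∈ List.range 9, ∀ l ∈ List.range 9, 1 ≤ k → 1 ≤ l → okf k l = true := by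
  decide +kernel

theorem close_two {k l : ℕ} (hk : k < 9) (hl : l < 9) (hk1 : 1 ≤ k) (hl1 : 1 ≤ l) {t₁ t₂ : BT}
    (h₁ : Real k t₁) (h₂ : Real l t₂) :
    ∃ r₁ r₂ a₁ b₁ a₂ b₂, R t₁ r₁ r₂ a₁ b₂ b₁ a₂ ∧ R t₂ r₂ r₁ a₂ b₁ b₂ a₁ := by
  have h := okf_all k (List.mem_range.2 hk) l (List.mem_range.2 hl) hk1 hl1
  simp only [okf, Bool.and_eq_true, decide_eq_true_eq, beq_iff_eq] at h
  obtain ⟨⟨⟨⟨⟨⟨⟨⟨c1, c2⟩, c3⟩, e1⟩, e2⟩, e3⟩, e4⟩, e5⟩, e6⟩ := h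
  have g₁ := h₁ _ c1
  have g₂ := R_act _ (List.mem_range.2 c3) _ _ _ _ _ _ _ (h₂ _ c2)
  rw [e1, e2, e3, e4, e5, e6] at g₂
  exact ⟨_, _, _, _, _, _, g₁, g₂⟩

/-- check for a single leaf on one side -/
def okx (i j : ℕ) : Bool :=
  let o := 10 * (9 * i + j)
  let a := dig XD o
  let b := dig XD (o + 1)
  (a != 3) && (b != 3) && (a != b) && decide (a ∈ cols) && decide (b ∈ cols) &&
  (12 &&& a == 0) && (12 &&& b == 0) && okw i j a 12 b 12 XD (o + 2)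

theorem okx_all : ∀ i ∈ List.range 9, ∀ j ∈ List.range 9, (1 ≤ i ∨ 1 ≤ j) → okx i j = true := by
  decide +kernel

theorem close_leaf {i j : ℕ} (hi : i < 9) (hj : j < 9) (hij : 1 ≤ i ∨ 1 ≤ j) {l r : BT}
    (h₁ : Real i l) (h₂ : Real j r) :
    ∃ a b, R (.node l r) 3 12 a 12 b 12 ∧ R .leaf 12 3 12 b 12 a := by
  have h := okx_all i (List.mem_range.2 hi) j (List.mem_range.2 hj) hij
  simp only [okx, Bool.and_eq_true, decide_eq_true_eq, beq_iff_eq, bne_iff_ne] at h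
  obtain ⟨⟨⟨⟨⟨⟨⟨c1, c2⟩, c3⟩, c4⟩, c5⟩, c6⟩, c7⟩, c8⟩ := h
  exact ⟨_, _, okw_spec c8 h₁ h₂, rfl, rfl, by decide, by decide, c5, c4, by decide, c7, c6,
    c2.symm, c1.symm, c3.symm⟩

/-- closing up: every pair of trees except the two smallest ones has matching states -/
theorem close_all (t₁ t₂ : BT) (h : ¬ (t₁ = .leaf ∧ t₂ = .leaf))
    (h' : ¬ (t₁ = .leaf ∧ t₂ = .node .leaf .leaf)) (h'' : ¬ (t₁ = .node .leaf .leaf ∧ t₂ = .leaf)) :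
    ∃ r₁ r₂ a₁ b₁ a₂ b₂, R t₁ r₁ r₂ a₁ b₂ b₁ a₂ ∧ R t₂ r₂ r₁ a₂ b₁ b₂ a₁ := by
  match t₁, t₂ with
  | .leaf, .leaf => exact absurd ⟨rfl, rfl⟩ h
  | .leaf, .node l r =>
    obtain ⟨i, hi, h₁, e₁⟩ := universal l
    obtain ⟨j, hj, h₂, e₂⟩ := universal r
    have hij : 1 ≤ i ∨ 1 ≤ j := by
      by_contra hc
      have h1 : i = 0 := by omega
      have h2 : j = 0 := by omega
      exact h' ⟨rfl, by rw [e₁ h1, e₂ h2]⟩
    obtain ⟨a, b, g₁, g₂⟩ := close_leaf hi hj hij h₁ h₂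
    exact ⟨_, _, _, _, _, _, g₂, g₁⟩
  | .node l r, .leaf =>
    obtain ⟨i, hi, h₁, e₁⟩ := universal l
    obtain ⟨j, hj, h₂, e₂⟩ := universal r
    have hij : 1 ≤ i ∨ 1 ≤ j := by
      by_contra hc
      have h1 : i = 0 := by omega
      have h2 : j = 0 := by omega
      exact h'' ⟨by rw [e₁ h1, e₂ h2], rfl⟩
    obtain ⟨a, b, g₁, g₂⟩ := close_leaf hi hj hij h₁ h₂
    exact ⟨_, _, _, _, _, _, g₁, g₂⟩
  | .node l r, .node l' r' =>
    obtain ⟨i, hi, h₁, e₁⟩ := universal (.node l r)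
    obtain ⟨j, hj, h₂, e₂⟩ := universal (.node l' r')
    have h1 : 1 ≤ i := by
      by_contra hc
      have := e₁ (by omega)
      cases this
    have h2 : 1 ≤ j := by
      by_contra hc
      have := e₂ (by omega)
      cases this
    exact close_two hi hj h1 h2 h₁ h₂

end Q129.Halin
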