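import Mathlib

/-!
Cubic Halin graphs and `t`-tone `k`-colourings.

Let `H = T ∪ C` be a cubic Halin graph and let `e` be any edge of the plane tree `T`.  Removing `e`
splits `T` into two plane trees; rooting each of them at its end of `e`, every vertex which is not
a leaf of `T` gets exactly two children, in a left-to-right order.  So `T` is given by two ordered
full binary trees `t₁`, `t₂` whose roots are joined by the edge `e`, and the leaves of `T`, in their
cyclic order, are the leaves of `t₁` from left to right followed by those of `t₂` from left to
right.
-/

set_option autoImplicit false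

namespace Q129.Halin

/-- ordered full binary trees: every vertex is a leaf or has a left and a right child -/
inductive BT
  | leaf : BT
  | node : BT → BT → BT

namespace BT

/-- the vertices of an ordered full binary tree (leaves and inner vertices) -/
def V : BT → Type
  | leaf => Unit
  | node l r => Option (V l ⊕ V r)

/-- the root -/
def root : (t : BT) → V t
  | leaf => ()
  | node _ _ => none

/-- the leftmost leaf -/
def lft : (t : BT) → V t
  | leaf => ()
  | node l _ => some (Sum.inl (lft l))

/-- the rightmost leaf -/
def rgt : (t : BT) → V t
  | leaf => ()
  | node _ r => some (Sum.inr (rgt r))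

/-- Adjacency inside an ordered full binary tree with its leaves joined by a path from left to
right: the root is joined to the roots of the left and of the right subtree, and the rightmost leaf
of the left subtree is joined to the leftmost leaf of the right subtree. -/
def adj : (t : BT) → V t → V t → Prop
  | leaf, _, _ => False
  | node _ _, none, none => False
  | node l _, none, some (Sum.inl y) => y = root l
  | node _ r, none, some (Sum.inr y) => y = root r
  | node l _, some (Sum.inl x), none => x = root l
  | node _ r, some (Sum.inr x), none => x = root r
  | node l _, some (Sum.inl x), some (Sum.inl y) => adj l x y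
  | node _ r, some (Sum.inr x), some (Sum.inr y) => adj r x y
  | node l r, some (Sum.inl x), some (Sum.inr y) => x = rgt l ∧ y = lft r
  | node l r, some (Sum.inr x), some (Sum.inl y) => y = rgt l ∧ x = lft r

theorem adj_symm : ∀ (t : BT) (x y : V t), adj t x y → adj t y x := by
  intro t
  induction t with
  | leaf => intro x y h; exact h
  | node l r ihl ihr =>
    intro x y h
    match x, y with
    | none, none => exact h
    | none, some (Sum.inl y) => exact h
    | none, some (Sum.inr y) => exact h
    | some (Sum.inl x), none => exact h
    | some (Sum.inr x), none => exact h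
    | some (Sum.inl x), some (Sum.inl y) => exact ihl x y h
    | some (Sum.inr x), some (Sum.inr y) => exact ihr x y h
    | some (Sum.inl x), some (Sum.inr y) => exact h
    | some (Sum.inr x), some (Sum.inl y) => exact h

theorem adj_irrefl : ∀ (t : BT) (x : V t), ¬ adj t x x := by
  intro t
  induction t with
  | leaf => intro x h; exact h
  | node l r ihl ihr =>
    intro x h
    match x with
    | none => exact h
    | some (Sum.inl x) => exact ihl x h
    | some (Sum.inr x) => exact ihr x h

end BT

open BT

/-- Adjacency between the two sides: the roots are joined (this is the edge `e` of the tree), and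
the leaf cycle is closed by joining the rightmost leaf of each side to the leftmost leaf of the
other. -/
def cross (t₁ t₂ : BT) (x : V t₁) (y : V t₂) : Prop :=
  (x = root t₁ ∧ y = root t₂) ∨ (x = rgt t₁ ∧ y = lft t₂) ∨ (x = lft t₁ ∧ y = rgt t₂)

/-- adjacency in `halin` -/
def hadj (t₁ t₂ : BT) : V t₁ ⊕ V t₂ → V t₁ ⊕ V t₂ → Prop
  | Sum.inl x, Sum.inl y => adj t₁ x y
  | Sum.inr x, Sum.inr y => adj t₂ x y
  | Sum.inl x, Sum.inr y => cross t₁ t₂ x y
  | Sum.inr x, Sum.inl y => cross t₁ t₂ y x

/-- The cubic Halin graph given by the plane tree that consists of the two ordered full binary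
trees `t₁`, `t₂` and an edge between their roots. -/
def halin (t₁ t₂ : BT) : SimpleGraph (V t₁ ⊕ V t₂) where
  Adj := hadj t₁ t₂
  symm := ⟨by
    intro x y h
    match x, y with
    | Sum.inl x, Sum.inl y => exact adj_symm t₁ x y h
    | Sum.inr x, Sum.inr y => exact adj_symm t₂ x y h
    | Sum.inl x, Sum.inr y => exact h
    | Sum.inr x, Sum.inl y => exact h⟩
  loopless := ⟨by
    intro x h
    match x with
    | Sum.inl x => exact adj_irrefl t₁ x h
    | Sum.inr x => exact adj_irrefl t₂ x h⟩

/-- `G` is `t`-tone `k`-colourable: the vertices can be coloured by `t`-element subsets of a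
`k`-element set such that any two distinct vertices `u`, `v` share fewer than `d(u, v)` colours. -/
def IsToneColorable {W : Type} (G : SimpleGraph W) (t k : ℕ) : Prop :=
  ∃ f : W → Finset (Fin k), (∀ v, (f v).card = t) ∧
    ∀ u v, u ≠ v → ((f u ∩ f v).card : ℕ∞) < G.edist u v

end Q129.Halin
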