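import Pool.Agent.Q129.Halin.Cert

/-! From states to colourings. -/

set_option autoImplicit false

namespace Q129.Halin

open BT

/-- `g` is a good colouring of `t` with the given boundary colours. -/
structure Good (t : BT) (g : V t → ℕ) (r p a a' b b' : ℕ) : Prop where
  root : g t.root = r
  lft : g t.lft = a
  rgt : g t.rgt = b
  col : ∀ x, g x ∈ cols
  dj : ∀ x y, adj t x y → g x &&& g y = 0
  ne : ∀ x y z, adj t x y → adj t y z → x ≠ z → g x ≠ g z
  rp : r &&& p = 0
  aa : a &&& a' = 0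
  bb : b &&& b' = 0
  np : ∀ x, adj t t.root x → g x ≠ p
  na : ∀ x, adj t t.lft x → g x ≠ a'
  nb : ∀ x, adj t t.rgt x → g x ≠ b'
  e1 : t.root = t.lft → p ≠ a'
  e2 : t.root = t.rgt → p ≠ b'
  e3 : t.lft = t.rgt → a' ≠ b'

theorem land_comm0 {x y : ℕ} (h : x &&& y = 0) : y &&& x = 0 := by
  rw [Nat.land_comm]; exact h

theorem good_of_R : ∀ (t : BT) (r p a a' b b' : ℕ), R t r p a a' b b' →
    ∃ g, Good t g r p a a' b b' := by
  intro t
  induction t with
  | leaf =>
    intro r p a a' b b' h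
    obtain ⟨rfl, rfl, h1, h2, h3, h4, h5, h6, h7, h8, h9, h10⟩ := h
    exact ⟨fun _ => b, rfl, rfl, rfl, fun _ => h1, fun _ _ h => h.elim, fun _ _ _ h => h.elim,
      h5, h6, h7, fun _ h => h.elim, fun _ h => h.elim, fun _ h => h.elim, fun _ => h8,
      fun _ => h9, fun _ => h10⟩
  | node t₁ t₂ ih₁ ih₂ =>
    intro r p a a' b b' h
    obtain ⟨h1, h2, h3, r₁, r₂, b₁, a₂, h4, h5, h6, h7, h8⟩ := h
    obtain ⟨g₁, G₁⟩ := ih₁ _ _ _ _ _ _ h7
    obtain ⟨g₂, G₂⟩ := ih₂ _ _ _ _ _ _ h8
    refine ⟨fun x => match x with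
      | none => r
      | some (Sum.inl x) => g₁ x
      | some (Sum.inr x) => g₂ x, rfl, G₁.lft, G₂.rgt, ?_, ?_, ?_, h3, G₁.aa, G₂.bb, ?_, ?_, ?_,
      ?_, ?_, ?_⟩
    · intro x
      match x with
      | none => exact h1
      | some (Sum.inl x) => exact G₁.col x
      | some (Sum.inr x) => exact G₂.col x
    · intro x y hxy
      match x, y with
      | none, none => exact hxy.elim
      | none, some (Sum.inl y) =>
        have hy : y = root t₁ := hxy
        subst hy
        simp only [G₁.root]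
        exact land_comm0 G₁.rp
      | none, some (Sum.inr y) =>
        have hy : y = root t₂ := hxy
        subst hy
        simp only [G₂.root]
        exact land_comm0 G₂.rp
      | some (Sum.inl x), none =>
        have hx : x = root t₁ := hxy
        subst hx
        simp only [G₁.root]
        exact G₁.rp
      | some (Sum.inr x), none =>
        have hx : x = root t₂ := hxy
        subst hx
        simp only [G₂.root]
        exact G₂.rp
      | some (Sum.inl x), some (Sum.inl y) => exact G₁.dj x y hxy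
      | some (Sum.inr x), some (Sum.inr y) => exact G₂.dj x y hxy
      | some (Sum.inl x), some (Sum.inr y) =>
        obtain ⟨hx, hy⟩ : x = rgt t₁ ∧ y = lft t₂ := hxy
        subst hx hy
        simp only [G₁.rgt, G₂.lft]
        exact G₁.bb
      | some (Sum.inr x), some (Sum.inl y) =>
        obtain ⟨hy, hx⟩ : y = rgt t₁ ∧ x = lft t₂ := hxy
        subst hx hy
        simp only [G₁.rgt, G₂.lft]
        exact G₂.aa
    · intro x y z hxy hyz hxz
      match x, y, z with
      | none, none, _ => exact hxy.elim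
      | _, none, none => exact hyz.elim
      | none, _, none => exact absurd rfl hxz
      | none, some (Sum.inl y), some (Sum.inl z) =>
        have hy : y = root t₁ := hxy
        subst hy
        exact (G₁.np z hyz).symm
      | none, some (Sum.inl y), some (Sum.inr z) =>
        have hy : y = root t₁ := hxy
        obtain ⟨hy', hz⟩ : y = rgt t₁ ∧ z = lft t₂ := hyz
        subst hy hz
        simp only [G₂.lft]
        exact G₁.e2 hy'
      | none, some (Sum.inr y), some (Sum.inr z) =>
        have hy : y = root t₂ := hxy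
        subst hy
        exact (G₂.np z hyz).symm
      | none, some (Sum.inr y), some (Sum.inl z) =>
        have hy : y = root t₂ := hxy
        obtain ⟨hz, hy'⟩ : z = rgt t₁ ∧ y = lft t₂ := hyz
        subst hy hz
        simp only [G₁.rgt]
        exact G₂.e1 hy'
      | some (Sum.inl x), none, some (Sum.inl z) =>
        have hx : x = root t₁ := hxy
        have hz : z = root t₁ := hyz
        subst hx hz
        exact absurd rfl hxz
      | some (Sum.inr x), none, some (Sum.inr z) =>
        have hx : x = root t₂ := hxy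
        have hz : z = root t₂ := hyz
        subst hx hz
        exact absurd rfl hxz
      | some (Sum.inl x), none, some (Sum.inr z) =>
        have hx : x = root t₁ := hxy
        have hz : z = root t₂ := hyz
        subst hx hz
        simp only [G₁.root, G₂.root]
        exact h4
      | some (Sum.inr x), none, some (Sum.inl z) =>
        have hx : x = root t₂ := hxy
        have hz : z = root t₁ := hyz
        subst hx hz
        simp only [G₁.root, G₂.root]
        exact h4.symm
      | some (Sum.inl x), some (Sum.inl y), none =>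
        have hy : y = root t₁ := hyz
        subst hy
        exact G₁.np x (adj_symm _ _ _ hxy)
      | some (Sum.inr x), some (Sum.inl y), none =>
        have hy : y = root t₁ := hyz
        obtain ⟨hy', hx⟩ : y = rgt t₁ ∧ x = lft t₂ := hxy
        subst hy hx
        simp only [G₂.lft]
        exact (G₁.e2 hy').symm
      | some (Sum.inr x), some (Sum.inr y), none =>
        have hy : y = root t₂ := hyz
        subst hy
        exact G₂.np x (adj_symm _ _ _ hxy)
      | some (Sum.inl x), some (Sum.inr y), none =>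
        have hy : y = root t₂ := hyz
        obtain ⟨hx, hy'⟩ : x = rgt t₁ ∧ y = lft t₂ := hxy
        subst hy hx
        simp only [G₁.rgt]
        exact (G₂.e1 hy').symm
      | some (Sum.inl x), some (Sum.inl y), some (Sum.inl z) =>
        exact G₁.ne x y z hxy hyz (fun h => hxz (by rw [h]))
      | some (Sum.inr x), some (Sum.inr y), some (Sum.inr z) =>
        exact G₂.ne x y z hxy hyz (fun h => hxz (by rw [h]))
      | some (Sum.inl x), some (Sum.inl y), some (Sum.inr z) =>
        obtain ⟨hy, hz⟩ : y = rgt t₁ ∧ z = lft t₂ := hyz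
        subst hy hz
        simp only [G₂.lft]
        exact G₁.nb x (adj_symm _ _ _ hxy)
      | some (Sum.inr x), some (Sum.inl y), some (Sum.inl z) =>
        obtain ⟨hy, hx⟩ : y = rgt t₁ ∧ x = lft t₂ := hxy
        subst hy hx
        simp only [G₂.lft]
        exact (G₁.nb z hyz).symm
      | some (Sum.inr x), some (Sum.inr y), some (Sum.inl z) =>
        obtain ⟨hz, hy⟩ : z = rgt t₁ ∧ y = lft t₂ := hyz
        subst hy hz
        simp only [G₁.rgt]
        exact G₂.na x (adj_symm _ _ _ hxy)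
      | some (Sum.inl x), some (Sum.inr y), some (Sum.inr z) =>
        obtain ⟨hx, hy⟩ : x = rgt t₁ ∧ y = lft t₂ := hxy
        subst hy hx
        simp only [G₁.rgt]
        exact (G₂.na z hyz).symm
      | some (Sum.inl x), some (Sum.inr y), some (Sum.inl z) =>
        obtain ⟨hx, -⟩ : x = rgt t₁ ∧ y = lft t₂ := hxy
        obtain ⟨hz, -⟩ : z = rgt t₁ ∧ y = lft t₂ := hyz
        subst hx hz
        exact absurd rfl hxz
      | some (Sum.inr x), some (Sum.inl y), some (Sum.inr z) =>
        obtain ⟨-, hx⟩ : y = rgt t₁ ∧ x = lft t₂ := hxy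
        obtain ⟨-, hz⟩ : y = rgt t₁ ∧ z = lft t₂ := hyz
        subst hx hz
        exact absurd rfl hxz
    · intro x hx
      match x with
      | none => exact (hx : False).elim
      | some (Sum.inl x) =>
        have hx : x = root t₁ := hx
        subst hx
        simp only [G₁.root]
        exact h5
      | some (Sum.inr x) =>
        have hx : x = root t₂ := hx
        subst hx
        simp only [G₂.root]
        exact h6
    · intro x hx
      match x with
      | none =>
        have hx : lft t₁ = root t₁ := hx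
        exact G₁.e1 hx.symm
      | some (Sum.inl x) => exact G₁.na x hx
      | some (Sum.inr x) =>
        obtain ⟨h, hx⟩ : lft t₁ = rgt t₁ ∧ x = lft t₂ := hx
        subst hx
        simp only [G₂.lft]
        exact (G₁.e3 h).symm
    · intro x hx
      match x with
      | none =>
        have hx : rgt t₂ = root t₂ := hx
        exact G₂.e2 hx.symm
      | some (Sum.inr x) => exact G₂.nb x hx
      | some (Sum.inl x) =>
        obtain ⟨hx, h⟩ : x = rgt t₁ ∧ rgt t₂ = lft t₂ := hx
        subst hx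
        simp only [G₁.rgt]
        exact G₂.e3 h.symm
    · intro h; cases h
    · intro h; cases h
    · intro h; cases h

/-- two trees with matching states give a colouring of the Halin graph -/
theorem glue {t₁ t₂ : BT} {r₁ r₂ a₁ b₁ a₂ b₂ : ℕ} (h₁ : R t₁ r₁ r₂ a₁ b₂ b₁ a₂)
    (h₂ : R t₂ r₂ r₁ a₂ b₁ b₂ a₁) :
    ∃ g : V t₁ ⊕ V t₂ → ℕ, (∀ x, g x ∈ cols) ∧
      (∀ x y, (halin t₁ t₂).Adj x y → g x &&& g y = 0) ∧
      (∀ x y z, (halin t₁ t₂).Adj x y → (halin t₁ t₂).Adj y z → x ≠ z → g x ≠ g z) := by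
  obtain ⟨g₁, G₁⟩ := good_of_R _ _ _ _ _ _ _ h₁
  obtain ⟨g₂, G₂⟩ := good_of_R _ _ _ _ _ _ _ h₂
  refine ⟨Sum.elim g₁ g₂, ?_, ?_, ?_⟩
  · intro x
    match x with
    | Sum.inl x => exact G₁.col x
    | Sum.inr x => exact G₂.col x
  · have key : ∀ x y, cross t₁ t₂ x y → g₁ x &&& g₂ y = 0 := by
      intro x y h
      rcases h with ⟨rfl, rfl⟩ | ⟨rfl, rfl⟩ | ⟨rfl, rfl⟩
      · rw [G₁.root, G₂.root]; exact G₁.rp
      · rw [G₁.rgt, G₂.lft]; exact G₁.bb
      · rw [G₁.lft, G₂.rgt]; exact G₁.aa
    intro x y h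
    match x, y with
    | Sum.inl x, Sum.inl y => exact G₁.dj x y h
    | Sum.inr x, Sum.inr y => exact G₂.dj x y h
    | Sum.inl x, Sum.inr y => exact key x y h
    | Sum.inr x, Sum.inl y => exact land_comm0 (key y x h)
  · have k1 : ∀ x y z, adj t₁ x y → cross t₁ t₂ y z → g₁ x ≠ g₂ z := by
      intro x y z h h'
      rcases h' with ⟨rfl, rfl⟩ | ⟨rfl, rfl⟩ | ⟨rfl, rfl⟩
      · rw [G₂.root]; exact G₁.np x (adj_symm _ _ _ h)
      · rw [G₂.lft]; exact G₁.nb x (adj_symm _ _ _ h)
      · rw [G₂.rgt]; exact G₁.na x (adj_symm _ _ _ h)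
    have k2 : ∀ x y z, cross t₁ t₂ x y → adj t₂ y z → g₁ x ≠ g₂ z := by
      intro x y z h' h
      rcases h' with ⟨rfl, rfl⟩ | ⟨rfl, rfl⟩ | ⟨rfl, rfl⟩
      · rw [G₁.root]; exact (G₂.np z h).symm
      · rw [G₁.rgt]; exact (G₂.na z h).symm
      · rw [G₁.lft]; exact (G₂.nb z h).symm
    have k3 : ∀ x y z, cross t₁ t₂ x y → cross t₁ t₂ x z → y ≠ z → g₂ y ≠ g₂ z := by
      intro x y z h h' hne
      rcases h with ⟨hx, rfl⟩ | ⟨hx, rfl⟩ | ⟨hx, rfl⟩ <;>
        rcases h' with ⟨hx', rfl⟩ | ⟨hx', rfl⟩ | ⟨hx', rfl⟩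
      · exact absurd rfl hne
      · rw [G₂.root, G₂.lft]; exact G₁.e2 (hx.symm.trans hx')
      · rw [G₂.root, G₂.rgt]; exact G₁.e1 (hx.symm.trans hx')
      · rw [G₂.root, G₂.lft]; exact (G₁.e2 (hx'.symm.trans hx)).symm
      · exact absurd rfl hne
      · rw [G₂.lft, G₂.rgt]; exact (G₁.e3 (hx'.symm.trans hx)).symm
      · rw [G₂.root, G₂.rgt]; exact (G₁.e1 (hx'.symm.trans hx)).symm
      · rw [G₂.lft, G₂.rgt]; exact G₁.e3 (hx.symm.trans hx')
      · exact absurd rfl hne
    have k4 : ∀ x y z, cross t₁ t₂ x y → cross t₁ t₂ z y → x ≠ z → g₁ x ≠ g₁ z := by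
      intro x y z h h' hne
      rcases h with ⟨rfl, hy⟩ | ⟨rfl, hy⟩ | ⟨rfl, hy⟩ <;>
        rcases h' with ⟨rfl, hy'⟩ | ⟨rfl, hy'⟩ | ⟨rfl, hy'⟩
      · exact absurd rfl hne
      · rw [G₁.root, G₁.rgt]; exact G₂.e1 (hy.symm.trans hy')
      · rw [G₁.root, G₁.lft]; exact G₂.e2 (hy.symm.trans hy')
      · rw [G₁.root, G₁.rgt]; exact (G₂.e1 (hy'.symm.trans hy)).symm
      · exact absurd rfl hne
      · rw [G₁.rgt, G₁.lft]; exact G₂.e3 (hy.symm.trans hy')
      · rw [G₁.root, G₁.lft]; exact (G₂.e2 (hy'.symm.trans hy)).symm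
      · rw [G₁.rgt, G₁.lft]; exact (G₂.e3 (hy'.symm.trans hy)).symm
      · exact absurd rfl hne
    intro x y z hxy hyz hxz
    match x, y, z with
    | Sum.inl x, Sum.inl y, Sum.inl z => exact G₁.ne x y z hxy hyz (fun h => hxz (by rw [h]))
    | Sum.inr x, Sum.inr y, Sum.inr z => exact G₂.ne x y z hxy hyz (fun h => hxz (by rw [h]))
    | Sum.inl x, Sum.inl y, Sum.inr z => exact k1 x y z hxy hyz
    | Sum.inl x, Sum.inr y, Sum.inr z => exact k2 x y z hxy hyz
    | Sum.inr x, Sum.inl y, Sum.inl z => exact (k1 z y x (adj_symm _ _ _ hyz) hxy).symm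
    | Sum.inr x, Sum.inr y, Sum.inl z => exact (k2 z y x hyz (adj_symm _ _ _ hxy)).symm
    | Sum.inl x, Sum.inr y, Sum.inl z => exact k4 x y z hxy hyz (fun h => hxz (by rw [h]))
    | Sum.inr x, Sum.inl y, Sum.inr z => exact k3 y x z hxy hyz (fun h => hxz (by rw [h]))

/-- the set of colours of a bit mask -/
def setOf (m : ℕ) : Finset (Fin 6) := Finset.univ.filter (fun i => m.testBit i.val = true)

theorem setOf_card : ∀ m ∈ cols, (setOf m).card = 2 := by decide +kernel

theorem setOf_disj : ∀ m ∈ cols, ∀ m' ∈ cols, m &&& m' = 0 → (setOf m ∩ setOf m').card = 0 := by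
  decide +kernel

theorem setOf_ne : ∀ m ∈ cols, ∀ m' ∈ cols, m ≠ m' → (setOf m ∩ setOf m').card ≤ 1 := by
  decide +kernel

theorem tone_of_glue {W : Type} (G : SimpleGraph W) (g : W → ℕ) (hc : ∀ x, g x ∈ cols)
    (hd : ∀ x y, G.Adj x y → g x &&& g y = 0)
    (hn : ∀ x y z, G.Adj x y → G.Adj y z → x ≠ z → g x ≠ g z) : IsToneColorable G 2 6 := by
  refine ⟨fun x => setOf (g x), fun x => setOf_card _ (hc x), ?_⟩
  intro u v huv
  by_cases hadj : G.Adj u v
  · rw [setOf_disj _ (hc u) _ (hc v) (hd u v hadj)]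
    exact_mod_cast SimpleGraph.edist_pos_of_ne huv
  · have h1 : ¬ G.edist u v ≤ 1 := by
      rw [SimpleGraph.edist_le_one_iff_adj_or_eq]
      tauto
    by_cases hcn : (G.commonNeighbors u v) = ∅
    · have h2 : 2 < G.edist u v := SimpleGraph.two_lt_edist_iff.2 ⟨huv, hadj, hcn⟩
      have h3 : (setOf (g u) ∩ setOf (g v)).card ≤ 2 := by
        rw [← setOf_card _ (hc u)]
        exact Finset.card_le_card Finset.inter_subset_left
      have h4 : ((setOf (g u) ∩ setOf (g v)).card : ℕ∞) ≤ 2 := by exact_mod_cast h3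
      exact lt_of_le_of_lt h4 h2
    · obtain ⟨w, hw⟩ := Set.nonempty_iff_ne_empty.2 hcn
      rw [SimpleGraph.mem_commonNeighbors] at hw
      have h3 := setOf_ne _ (hc u) _ (hc v) (hn u w v hw.1 hw.2.symm huv)
      have h4 : ((setOf (g u) ∩ setOf (g v)).card : ℕ∞) ≤ 1 := by exact_mod_cast h3
      exact lt_of_le_of_lt h4 (not_le.1 h1)

theorem main (t₁ t₂ : BT) (h : 6 ≤ Nat.card (V t₁ ⊕ V t₂)) :
    IsToneColorable (halin t₁ t₂) 2 6 := by
  have c0 : Nat.card (V .leaf) = 1 := by
    change Nat.card Unit = 1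
    simp
  have c1 : Nat.card (V (.node .leaf .leaf)) = 3 := by
    change Nat.card (Option (Unit ⊕ Unit)) = 3
    simp
  have f0 : Finite (V .leaf) := inferInstanceAs (Finite Unit)
  have f1 : Finite (V (.node .leaf .leaf)) := inferInstanceAs (Finite (Option (Unit ⊕ Unit)))
  obtain ⟨r₁, r₂, a₁, b₁, a₂, b₂, h₁, h₂⟩ := close_all t₁ t₂
    (by
      rintro ⟨rfl, rfl⟩
      rw [Nat.card_sum, c0] at h
      omega)
    (by
      rintro ⟨rfl, rfl⟩
      rw [Nat.card_sum, c0, c1] at h
      omega)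
    (by
      rintro ⟨rfl, rfl⟩
      rw [Nat.card_sum, c0, c1] at h
      omega)
  obtain ⟨g, hc, hd, hn⟩ := glue h₁ h₂
  exact tone_of_glue _ g hc hd hn

end Q129.Halin
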